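import Pool.Agent.Q115.StarMain

namespace Pool.Agent.Results.MP_828339_co.NoFiniteFamily

open Pool.Agent.Q115.StarD Filter Topology

/-- For every finite family of graphon sequences there are graphs `G`, `H` with finite density
domination exponent `ρ(G,H) = ρ` such that for no sequence of the family the ratio
`log t(H,W_n) / log t(G,W_n)` converges to `ρ`. -/
theorem result (F : Set (ℕ → Graphon)) (hF : F.Finite) :
    ∃ (V V' : Type) (_ : Fintype V) (_ : Fintype V') (G : SimpleGraph V)
      (H : SimpleGraph V') (ρ : ℝ), HasExponent G H ρ ∧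
      ∀ W ∈ F, ¬ Tendsto (fun n => Real.log (homDensity H (W n)) /
        Real.log (homDensity G (W n))) atTop (𝓝 ρ) := by
  by_contra hcon
  push Not at hcon
  have hex : ∀ m : ℕ, ∃ W : F, Tendsto (fun n => Real.log (homDensity (HH m) (W.1 n)) /
      Real.log (homDensity (GG m) (W.1 n))) atTop (𝓝 (rho m)) := by
    intro m
    obtain ⟨W, hW, h⟩ := hcon _ _ inferInstance inferInstance (GG m) (HH m) (rho m)
      (hasExponent m)
    exact ⟨⟨W, hW⟩, h⟩
  choose f hf using hex
  have : Finite F := hF
  obtain ⟨m, m', hne, heq⟩ := Finite.exists_ne_map_eq_of_infinite f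
  rcases lt_or_gt_of_ne hne with h | h
  · exact not_two h (f m).1 (hf m) (by rw [heq]; exact hf m')
  · exact not_two h (f m').1 (hf m') (by rw [← heq]; exact hf m)

end Pool.Agent.Results.MP_828339_co.NoFiniteFamily
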